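import Pool.Agent.TH826.UH.Final
set_option autoImplicit false

/-!
The rank of the regulator on integral `K_2` for explicit families of hyperelliptic curves over `ℚ`
of every genus `g`, for *every* member of the families: the curves `z + 1/z = F(x)` with
`F = t + lam ∏_{i ≤ g} (x - b_i)`, where `t ∈ {0, ±1, ±2}` and `lam`, `b_0, ..., b_g` are integers,
the `b_i` are different, and `|lam| ≥ 17` or the `b_i` are sufficiently far from each other.
-/

namespace Pool.Agent.Results.MP_743d1e_nt.UniformHyperelliptic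

open Polynomial

open Pool.Agent.TH826.MK (KQ symb Torus Unramified)

open Pool.Agent.TH826.HD (PRing POpen pent toP pcst pDel isDomain_PRing pDel_ne_zero liftP
  liftP_toP)

open Pool.Agent.TH826.UH

variable {g : ℕ}

/-- The polynomial `F = t + lam ∏_{i ≤ g} (x - b_i)`. -/
noncomputable def Fam (b : Fin (g + 1) → ℤ) (lam t : ℤ) : ℚ[X] :=
  C (t : ℚ) + C (lam : ℚ) * ∏ i, (X - C (b i : ℚ))

/-- The integers `b_i` as rational numbers. -/
def bq (b : Fin (g + 1) → ℤ) : Fin (g + 1) → ℚ := fun i => (b i : ℚ)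

/-- The embedding of `ℚ` into `ℂ`. -/
noncomputable def sq : ℚ →+* ℂ := algebraMap ℚ ℂ

theorem sq_int (n : ℤ) : sq (n : ℚ) = (n : ℂ) := map_intCast sq n

theorem fam_map (b : Fin (g + 1) → ℤ) (lam t : ℤ) :
    (Fam b lam t).map sq = C (t : ℂ) + C (lam : ℂ) * ∏ i, (X - C ((b i : ℤ) : ℂ)) := by
  unfold Fam
  simp only [Polynomial.map_add, Polynomial.map_mul, Polynomial.map_C, Polynomial.map_prod,
    Polynomial.map_sub, Polynomial.map_X, sq_int]

theorem fam_eval (b : Fin (g + 1) → ℤ) (lam t : ℤ) (i : Fin (g + 1)) :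
    (Fam b lam t).eval (bq b i) = t := by
  unfold Fam bq
  rw [eval_add, eval_C, eval_mul, eval_prod,
    Finset.prod_eq_zero (Finset.mem_univ i) (by simp), mul_zero, add_zero]

theorem fam_int (b : Fin (g + 1) → ℤ) (lam t : ℤ) (i : ℕ) :
    IsIntegral ℤ ((Fam b lam t).coeff i) := by
  have h : Fam b lam t = (C t + C lam * ∏ i, (X - C (b i)) : ℤ[X]).map (algebraMap ℤ ℚ) := by
    unfold Fam
    simp [Polynomial.map_prod]
  rw [h, Polynomial.coeff_map]
  exact isIntegral_algebraMap

theorem exists_zeta {t : ℤ} (ht : |t| ≤ 2) : ∃ (ζ : ℂ) (k : ℕ), k ≠ 0 ∧ ζ ^ k = 1 ∧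
    (t : ℂ) = ζ + ζ⁻¹ := by
  obtain ⟨w, hw⟩ := IsAlgClosed.exists_pow_nat_eq ((t : ℂ) ^ 2 / 4 - 1) (n := 2) (by norm_num)
  set ζ : ℂ := (t : ℂ) / 2 + w with hζ
  have h1 : ζ ^ 2 - t * ζ + 1 = 0 := by
    rw [hζ]
    linear_combination hw
  have h0 : ζ ≠ 0 := by
    intro h
    rw [h] at h1
    norm_num at h1
  have h2 : (t : ℂ) = ζ + ζ⁻¹ := by
    field_simp
    linear_combination -h1
  refine ⟨ζ, 12, by norm_num, ?_, h2⟩
  rw [abs_le] at ht
  obtain ⟨ht1, ht2⟩ := ht
  clear_value ζ
  interval_cases t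
  · have h3 : (ζ + 1) ^ 2 = 0 := by push_cast at h1; linear_combination h1
    have h4 : ζ = -1 := by linear_combination pow_eq_zero_iff (two_ne_zero) |>.1 h3
    rw [h4]
    norm_num
  · have h3 : ζ ^ 3 = 1 := by push_cast at h1; linear_combination (ζ - 1) * h1
    calc ζ ^ 12 = (ζ ^ 3) ^ 4 := by ring
      _ = 1 := by rw [h3, one_pow]
  · have h3 : ζ ^ 2 = -1 := by push_cast at h1; linear_combination h1
    calc ζ ^ 12 = (ζ ^ 2) ^ 6 := by ring
      _ = 1 := by rw [h3]; norm_num
  · have h3 : ζ ^ 3 = -1 := by push_cast at h1; linear_combination (ζ + 1) * h1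
    calc ζ ^ 12 = (ζ ^ 3) ^ 4 := by ring
      _ = 1 := by rw [h3]; norm_num
  · have h3 : (ζ - 1) ^ 2 = 0 := by push_cast at h1; linear_combination h1
    have h4 : ζ = 1 := by linear_combination pow_eq_zero_iff (two_ne_zero) |>.1 h3
    rw [h4]
    norm_num

/-- Let `b_0, ..., b_g` be different integers, `lam` and `t` integers with `|t| ≤ 2`, and suppose
that `|lam| ≥ 17`, or that the mutual distances of the `b_i` are at least `D ≥ 2` with
`(2 + |t|) 2 ^ (g + 1) < |lam| D ^ (g + 1)`. Put `F = t + lam ∏ (x - b_i)`. Then the coordinate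
ring of the plane curve `z² - F(x) z + 1 = 0` over `ℚ` is a domain, the curve is smooth at its
complex points, the symbols `{z, (x - b_m) / (x - b_l)}` are unramified at all discrete valuations
of the function field, and there are `g` loops in the complex points of the open part
`∏_m (x - b_m) ≠ 0` of the curve such that the determinant of the regulators on the loops of the
`g` symbols `{z, (x - b_k) / (x - b_0)}`, `1 ≤ k ≤ g`, does not vanish. -/
theorem result (g : ℕ) (b : Fin (g + 1) → ℤ) (hb : Function.Injective b) (lam t : ℤ)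
    (ht : |t| ≤ 2)
    (h : 17 ≤ |lam| ∨ ∃ D : ℝ, 2 ≤ D ∧ (∀ i j, i ≠ j → D ≤ |(b i : ℝ) - b j|) ∧
      (2 + |(t : ℝ)|) * 2 ^ (g + 1) < |(lam : ℝ)| * D ^ (g + 1)) :
    IsDomain (PRing (Fam b lam t)) ∧
    (∀ x z : ℂ, z ^ 2 - (Fam b lam t).eval₂ sq x * z + 1 = 0 →
      2 * z - (Fam b lam t).eval₂ sq x ≠ 0 ∨
      (derivative (Fam b lam t)).eval₂ sq x * z ≠ 0) ∧
    (∀ (L : Type*) [Field L] [Algebra (PRing (Fam b lam t)) L]
      [IsFractionRing (PRing (Fam b lam t)) L],
      ∃ f : POpen (Fam b lam t) (bq b) →+* L,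
        (∀ r : PRing (Fam b lam t),
          f (toP (Fam b lam t) (bq b) r) = algebraMap (PRing (Fam b lam t)) L r) ∧
        ∀ m l, KQ.map 2 f (symb (pent (Fam b lam t) (bq b) m l)) ∈ Unramified L 2) ∧
    ∃ Γ : Fin g → Torus (POpen (Fam b lam t) (bq b)) 1,
      (∀ l θ (y : ℚ), (Γ l).e θ (pcst (Fam b lam t) (bq b) y) = (y : ℂ)) ∧
      (Matrix.of fun l k : Fin g =>
        (Γ l).reg (symb (pent (Fam b lam t) (bq b) k.succ 0))).det ≠ 0 := by
  have hlam : lam ≠ 0 := by
    rintro rfl
    rcases h with h | ⟨D, hD, -, h⟩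
    · norm_num at h
    · rw [Int.cast_zero, abs_zero, zero_mul] at h
      have : 0 ≤ (2 + |(t : ℝ)|) * 2 ^ (g + 1) := by positivity
      linarith
  have hlam' : (lam : ℂ) ≠ 0 := Int.cast_ne_zero.2 hlam
  have htn : ‖(t : ℂ)‖ ≤ 2 := by
    rw [Complex.norm_intCast]
    exact_mod_cast ht
  have hmap := fam_map b lam t
  have hlead : ((Fam b lam t).map sq).leadingCoeff = lam := leadingCoeff_fam hlam' hmap
  have hζ := exists_zeta ht
  have hti : ∀ i, ∃ (ζ : ℂ) (k : ℕ), k ≠ 0 ∧ ζ ^ k = 1 ∧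
      sq ((Fam b lam t).eval (bq b i)) = ζ + ζ⁻¹ := by
    intro i
    rw [fam_eval, sq_int]
    exact hζ
  have hti' : ∀ i, ∃ ζ : ℂ, ‖ζ‖ = 1 ∧ sq ((Fam b lam t).eval (bq b i)) = ζ + ζ⁻¹ := by
    intro i
    obtain ⟨ζ, k, hk, h1, h2⟩ := hti i
    refine ⟨ζ, ?_, h2⟩
    have h3 := congrArg norm h1
    rw [norm_pow, norm_one] at h3
    exact (pow_eq_one_iff_of_nonneg (norm_nonneg _) hk).1 h3
  have hsb : (fun j => sq (bq b j)) = fun j => ((b j : ℤ) : ℂ) := by
    funext j
    exact sq_int _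
  have hdist : ∀ i j, ‖sq (bq b i) - sq (bq b j)‖ = |(b i : ℝ) - b j| := by
    intro i j
    have h1 : sq (bq b i) - sq (bq b j) = (((b i : ℝ) - b j : ℝ) : ℂ) := by
      rw [show sq (bq b i) = ((b i : ℤ) : ℂ) from sq_int _,
        show sq (bq b j) = ((b j : ℤ) : ℂ) from sq_int _]
      push_cast
      ring
    rw [h1, Complex.norm_real, Real.norm_eq_abs]
  have hlog2 : 0 < Real.log 2 := Real.log_pos (by norm_num)
  have hlam1 : (1 : ℝ) ≤ |(lam : ℝ)| := by
    have := Int.one_le_abs hlam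
    exact_mod_cast this
  obtain ⟨ρ, η, H, hfar⟩ : ∃ ρ η, Sepd ((Fam b lam t).map sq) (fun j => sq (bq b j)) ρ η ∧
      ∀ i, ∃ N : Finset (Fin (g + 1)),
      (N.card : ℝ) * (2 * Real.log 2) ≤ Real.log ‖((Fam b lam t).map sq).leadingCoeff‖ ∧
      ∀ j, i ≠ j → (j ∉ N → ρ + 1 ≤ ‖sq (bq b i) - sq (bq b j)‖) ∧
        ρ + 1 / 2 ≤ ‖sq (bq b i) - sq (bq b j)‖ := by
    rw [hsb, hlead, Complex.norm_intCast]
    simp only [hdist]
    rcases h with h17 | ⟨D, hD, hsep, hlt⟩
    · have h17' : (17 : ℝ) ≤ |(lam : ℝ)| := by exact_mod_cast h17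
      obtain ⟨η, H⟩ := sepd_int hb hlam' hmap htn (by
        rw [Complex.norm_intCast]
        exact h17')
      refine ⟨1 / 2, η, H, fun i => ?_⟩
      refine ⟨Finset.univ.filter fun j => b j = b i - 1 ∨ b j = b i + 1, ?_, fun j hij => ?_⟩
      · have hcard : (Finset.univ.filter fun j => b j = b i - 1 ∨ b j = b i + 1).card ≤ 2 := by
          have h1 : ((Finset.univ.filter fun j => b j = b i - 1 ∨ b j = b i + 1).image b) ⊆
              {b i - 1, b i + 1} := by
            intro y hy
            obtain ⟨j, hj, rfl⟩ := Finset.mem_image.1 hy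
            have h2 := (Finset.mem_filter.1 hj).2
            simpa using h2
          rw [← Finset.card_image_of_injective _ hb]
          exact (Finset.card_le_card h1).trans Finset.card_le_two
        have hcard' : ((Finset.univ.filter fun j => b j = b i - 1 ∨ b j = b i + 1).card : ℝ) ≤ 2 := by
          exact_mod_cast hcard
        have h16 : 2 * (2 * Real.log 2) = Real.log 16 := by
          rw [show (16 : ℝ) = 2 ^ 4 by norm_num, Real.log_pow]
          push_cast
          ring
        calc ((Finset.univ.filter fun j => b j = b i - 1 ∨ b j = b i + 1).card : ℝ) *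
              (2 * Real.log 2) ≤ 2 * (2 * Real.log 2) :=
              mul_le_mul_of_nonneg_right hcard' (by positivity)
          _ = Real.log 16 := h16
          _ ≤ Real.log |(lam : ℝ)| := Real.log_le_log (by norm_num) (by linarith)
      · have hne : b i - b j ≠ 0 := sub_ne_zero.2 (hb.ne hij)
        have h1 : |(b i : ℝ) - b j| = ((|b i - b j| : ℤ) : ℝ) := by
          rw [Int.cast_abs, Int.cast_sub]
        rw [h1]
        refine ⟨fun hj => ?_, ?_⟩
        · have h2 : ¬ (b j = b i - 1 ∨ b j = b i + 1) := fun h =>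
            hj (Finset.mem_filter.2 ⟨Finset.mem_univ j, h⟩)
          push Not at h2
          have h3 : 2 ≤ |b i - b j| := by
            have h4 := Int.one_le_abs hne
            rcases abs_cases (b i - b j) with ⟨h5, -⟩ | ⟨h5, -⟩
            · have : b i - b j ≠ 1 := fun h => h2.1 (by omega)
              omega
            · have : b i - b j ≠ -1 := fun h => h2.2 (by omega)
              omega
          have h4 : (2 : ℝ) ≤ ((|b i - b j| : ℤ) : ℝ) := by exact_mod_cast h3
          linarith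
        · have h4 : (1 : ℝ) ≤ ((|b i - b j| : ℤ) : ℝ) := by exact_mod_cast Int.one_le_abs hne
          linarith
    · have hsep' : ∀ i j, i ≠ j → D ≤ ‖((b i : ℤ) : ℂ) - ((b j : ℤ) : ℂ)‖ := by
        intro i j hij
        have h1 := hsep i j hij
        rw [← hdist, show sq (bq b i) = ((b i : ℤ) : ℂ) from sq_int _,
          show sq (bq b j) = ((b j : ℤ) : ℂ) from sq_int _] at h1
        exact h1
      obtain ⟨η, H⟩ := sepd_dist (b := fun i => ((b i : ℤ) : ℂ)) hlam' hmap hD hsep' htn (by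
        rw [Complex.norm_intCast, Complex.norm_intCast]
        exact hlt)
      refine ⟨D / 2, η, H, fun i => ⟨∅, ?_, fun j hij => ?_⟩⟩
      · rw [Finset.card_empty, Nat.cast_zero, zero_mul]
        exact Real.log_nonneg hlam1
      · have h1 := hsep i j hij
        exact ⟨fun _ => by linarith, by linarith⟩
  have hdegF : 0 < (Fam b lam t).natDegree := by
    have h1 := H.deg
    rw [Polynomial.natDegree_map] at h1
    omega
  refine ⟨isDomain_PRing hdegF, fun x z h => smooth_of_sepd H h, ?_, ?_⟩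
  · intro L _ _ _
    have hinj : Function.Injective (algebraMap (PRing (Fam b lam t)) L) :=
      IsFractionRing.injective _ _
    have hne : algebraMap (PRing (Fam b lam t)) L (pDel (Fam b lam t) (bq b)) ≠ 0 := by
      rw [Ne, map_eq_zero_iff _ hinj]
      exact pDel_ne_zero (bq b)
    exact ⟨liftP (algebraMap (PRing (Fam b lam t)) L) hne, fun r => liftP_toP _ _ _,
      fun m l => symb_mem_unramified _ sq (fam_int b lam t) (fun i => by
        unfold bq
        exact isIntegral_algebraMap (R := ℤ) (x := b i)) m l hti⟩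
  · exact exists_loops H hfar hti'

end Pool.Agent.Results.MP_743d1e_nt.UniformHyperelliptic
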