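import Pool.Agent.TH690.UR.Final
set_option autoImplicit false

/-!
Integral `K_2` of the curves `lam ∏_{i ≤ m} (x - a_i) ∏_{j ≤ n} (y - b_j) = 1` of bidegree
`(m + 1, n + 1)` in `ℙ¹ × ℙ¹` (of genus `m n`, and not hyperelliptic if `m, n ≥ 2`), over `ℚ` or a
number field: the `m n` symbols `{(x - a_i)/(x - a_0), (y - b_j)/(y - b_0)}` are unramified, and
their regulators on `m n` loops of the curve are independent, under an explicit condition on `lam`
and the differences of the `a_i` and of the `b_j` (no limit).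
-/

namespace Pool.Agent.Results.MP_743d1e_nt.UniformProductCurves

open Pool.Agent.TH826.MK (KQ symb Torus Unramified)

open Pool.Agent.TH690.UR

/-- Let `K` be a number field (for example `ℚ`), `s : K → ℂ` an embedding, and
`lam, a_0, ..., a_m, b_0, ..., b_n` algebraic integers of `K` such that `|s a_i - s a_j| ≥ D > 0`
and `|s b_i - s b_j| ≥ E > 0` for `i ≠ j`, and
`6 (m n + 1) 2 ^ (m + n + 2) ≤ |s lam| D ^ (m + 1) E ^ (n + 1)` (for example, `m, n ≥ 1`,
`D = E = 4` and `|s lam| ≥ 1`). Then the coordinate ring of the plane curve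
`lam ∏_i (x - a_i) ∏_j (y - b_j) = 1` over `K` is a domain, the curve is smooth at its complex
points over `s`, all symbols `{(x - a_i)/(x - a_0), (y - b_j)/(y - b_0)}` are unramified at all
discrete valuations of the function field, and there are `m n` loops in the complex points over `s`
of the curve such that the determinant of the regulators on the loops of the `m n` symbols
`{(x - a_i)/(x - a_0), (y - b_j)/(y - b_0)}`, `1 ≤ i ≤ m`, `1 ≤ j ≤ n`, does not vanish. -/
theorem result.{u, v} (m n : ℕ) (K : Type u) [Field K] [NumberField K] (s : K →+* ℂ) (lam : K)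
    (a : Fin (m + 1) → K) (b : Fin (n + 1) → K) (hlam : IsIntegral ℤ lam)
    (ha : ∀ i, IsIntegral ℤ (a i)) (hb : ∀ j, IsIntegral ℤ (b j)) (D E : ℝ) (hD : 0 < D) (hE : 0 < E)
    (hsa : ∀ i j, i ≠ j → D ≤ ‖s (a i) - s (a j)‖)
    (hsb : ∀ i j, i ≠ j → E ≤ ‖s (b i) - s (b j)‖)
    (hW : 6 * ((m : ℝ) * n + 1) * 2 ^ (m + n + 2) ≤
      ‖s lam‖ * (D ^ (m + 1) * E ^ (n + 1))) :
    IsDomain (CRing lam a b) ∧ SmoothAt s lam a b ∧
    (∀ (L : Type v) [Field L] [Algebra (CRing lam a b) L] [IsFractionRing (CRing lam a b) L]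
      (i : Fin (m + 1)) (j : Fin (n + 1)),
      KQ.map 2 (algebraMap (CRing lam a b) L) (symb (cent lam a b i j)) ∈ Unramified L 2) ∧
    ∃ Γ : Fin m × Fin n → Torus (CRing lam a b) 1,
      (∀ p θ (y : K), (Γ p).e θ (ccst lam a b y) = s y) ∧
      (Matrix.of fun p q : Fin m × Fin n =>
        (Γ p).reg (symb (cent lam a b q.1.succ q.2.succ))).det ≠ 0 := by
  have hl0 : lam ≠ 0 := by
    intro h0
    rw [h0, map_zero, norm_zero, zero_mul] at hW
    have h1 : (0 : ℝ) < 6 * ((m : ℝ) * n + 1) * 2 ^ (m + n + 2) := by positivity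
    linarith
  have hinj : Function.Injective a := by
    intro i j hij
    by_contra hne
    have h1 := hsa i j hne
    rw [hij, sub_self, norm_zero] at h1
    linarith
  exact ⟨isDomain_CRing hl0 hinj, smoothAt hD hE hsa hsb hW,
    fun L _ _ _ i j => symb_mem_unramified _ hlam ha hb i j, exists_loops hD hE hsa hsb hW⟩

end Pool.Agent.Results.MP_743d1e_nt.UniformProductCurves
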